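import Pool.Agent.MNF.Reduction

/-!
# Roots of proper subgroups in perfect locally finite minimal non-FC groups
-/

set_option autoImplicit false

open scoped Pointwise commutatorElement

namespace Pool.Agent.MNF

variable {G : Type*} [Group G]

theorem MN.normalClosure_ne_top (h : MN G) {S : Set G} (hS : S.Finite) :
    Subgroup.normalClosure S ≠ ⊤ := by
  induction S, hS using Set.Finite.induction_on with
  | empty =>
    have h1 := h.ns 1
    intro h2
    apply h1
    rw [eq_top_iff, ← h2]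
    exact Subgroup.normalClosure_mono (by simp)
  | @insert a s _ _ ih =>
    have h1 := h.sup_ne_top ih (h.ns a)
    intro h2
    apply h1
    rw [eq_top_iff, ← h2]
    refine Subgroup.normalClosure_le_normal ?_
    rintro x (rfl | hx)
    · exact Subgroup.mem_sup_right (Subgroup.subset_normalClosure rfl)
    · exact Subgroup.mem_sup_left (Subgroup.subset_normalClosure hx)

theorem MN.quotient (h : MN G) (N : Subgroup G) [hN : N.Normal]
    (hN' : N ≠ ⊤) : MN (G ⧸ N) := by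
  have hsurj := QuotientGroup.mk'_surjective N
  have hcomap : ∀ H : Subgroup (G ⧸ N), H ≠ ⊤ → H.comap (QuotientGroup.mk' N) ≠ ⊤ := by
    intro H hH h1
    apply hH
    rw [eq_top_iff]
    intro x _
    obtain ⟨g, rfl⟩ := hsurj x
    have : g ∈ H.comap (QuotientGroup.mk' N) := by rw [h1]; trivial
    exact this
  have hperf : commutator (G ⧸ N) = ⊤ :=
    commutator_eq_top_of_surjective (QuotientGroup.mk' _) hsurj h.perf
  have hmin : ∀ H : Subgroup (G ⧸ N), H ≠ ⊤ → ∀ h ∈ H,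
      {x | ∃ g ∈ H, g * h * g⁻¹ = x}.Finite := by
    intro H hH q hq
    obtain ⟨g, rfl⟩ := hsurj q
    refine ((h.min _ (hcomap H hH) g hq).image (QuotientGroup.mk' N)).subset ?_
    rintro _ ⟨c, hc, rfl⟩
    obtain ⟨z, rfl⟩ := hsurj c
    exact ⟨z * g * z⁻¹, ⟨z, hc, rfl⟩, by rw [map_mul, map_mul, map_inv]⟩
  refine ⟨fun s => ?_, hperf, fun hfc => ?_, hmin, fun q htop => ?_⟩
  · classical
    let t : Finset G := s.image (Function.surjInv hsurj)
    have h1 : (s : Set (G ⧸ N)) = (QuotientGroup.mk' N) '' (t : Set G) := by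
      ext x
      simp only [t, Finset.coe_image, Set.mem_image]
      constructor
      · intro hx
        exact ⟨_, ⟨x, hx, rfl⟩, Function.surjInv_eq hsurj x⟩
      · rintro ⟨_, ⟨y, hy, rfl⟩, rfl⟩
        rw [Function.surjInv_eq hsurj]
        exact hy
    rw [h1, ← MonoidHom.map_closure]
    exact (h.lf t).image _
  · -- `G ⧸ N` is not FC
    have hidx : ∀ M : Subgroup (G ⧸ N), M.Normal → M.FiniteIndex → M = ⊤ := by
      intro M hM hfi
      by_contra hne
      refine hcomap M hne (eq_top_of_finiteIndex h.perf h.nfc h.min _ (hM.comap _) ⟨?_⟩)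
      rw [Subgroup.index_comap_of_surjective _ hsurj]
      exact hfi.index_ne_zero
    exact hN' (QuotientGroup.subsingleton_iff.1 (subsingleton_of_fc hidx hfc hperf))
  · obtain ⟨a, rfl⟩ := hsurj q
    apply h.sup_ne_top (h.ns a) hN'
    have hn : (Subgroup.normalClosure ({a} : Set G) ⊔ N).Normal := inferInstance
    have h1 : Subgroup.normalClosure ({(QuotientGroup.mk' N) a} : Set (G ⧸ N)) ≤
        (Subgroup.normalClosure ({a} : Set G) ⊔ N).map (QuotientGroup.mk' N) := by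
      have hm : ((Subgroup.normalClosure ({a} : Set G) ⊔ N).map (QuotientGroup.mk' N)).Normal :=
        hn.map _ hsurj
      refine Subgroup.normalClosure_le_normal ?_
      rw [Set.singleton_subset_iff]
      exact ⟨a, Subgroup.mem_sup_left (Subgroup.subset_normalClosure rfl), rfl⟩
    rw [htop] at h1
    rw [eq_top_iff]
    intro g _
    obtain ⟨b, hb, hbg⟩ := h1 (Subgroup.mem_top ((QuotientGroup.mk' N) g))
    have h2 : b⁻¹ * g ∈ N := QuotientGroup.eq.1 hbg
    have h3 : b * (b⁻¹ * g) ∈ Subgroup.normalClosure ({a} : Set G) ⊔ N :=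
      Subgroup.mul_mem _ hb (Subgroup.mem_sup_right h2)
    rwa [mul_inv_cancel_left] at h3

/-- Grün's lemma: a perfect group modulo its centre has trivial centre. -/
theorem center_quotient_center (hperf : commutator G = ⊤) :
    Subgroup.center (G ⧸ Subgroup.center G) = ⊥ := by
  let Z2 : Subgroup G := (Subgroup.center (G ⧸ Subgroup.center G)).comap
    (QuotientGroup.mk' (Subgroup.center G))
  have h1 : ⁅Z2, (⊤ : Subgroup G)⁆ ≤ Subgroup.center G := by
    rw [Subgroup.commutator_le]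
    intro z hz g _
    rw [← QuotientGroup.eq_one_iff]
    have hz' : (QuotientGroup.mk' (Subgroup.center G)) z ∈
        Subgroup.center (G ⧸ Subgroup.center G) := hz
    have h2 := Subgroup.mem_center_iff.1 hz' ((QuotientGroup.mk' (Subgroup.center G)) g)
    show (QuotientGroup.mk' (Subgroup.center G)) ⁅z, g⁆ = 1
    rw [map_commutatorElement, commutatorElement_eq_one_iff_mul_comm]
    exact h2.symm
  have hcen : Subgroup.center G ≤ Subgroup.centralizer ((⊤ : Subgroup G) : Set G) := by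
    rw [Subgroup.coe_top, Subgroup.centralizer_univ]
  have h2 : ⁅⁅Z2, (⊤ : Subgroup G)⁆, (⊤ : Subgroup G)⁆ = ⊥ := by
    rw [Subgroup.commutator_eq_bot_iff_le_centralizer]
    exact h1.trans hcen
  have h3 : ⁅⁅(⊤ : Subgroup G), Z2⁆, (⊤ : Subgroup G)⁆ = ⊥ := by
    rw [Subgroup.commutator_comm ⊤ Z2]
    exact h2
  have h4 : ⁅⁅(⊤ : Subgroup G), (⊤ : Subgroup G)⁆, Z2⁆ = ⊥ :=
    Subgroup.commutator_commutator_eq_bot_of_rotate h3 h2
  rw [commutator_def] at hperf
  rw [hperf, Subgroup.commutator_comm, Subgroup.commutator_eq_bot_iff_le_centralizer,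
    Subgroup.coe_top, Subgroup.centralizer_univ] at h4
  rw [eq_bot_iff]
  intro q hq
  obtain ⟨g, rfl⟩ := QuotientGroup.mk'_surjective (Subgroup.center G) q
  have h5 : g ∈ Subgroup.center G := h4 hq
  rw [Subgroup.mem_bot]
  exact (QuotientGroup.eq_one_iff g).2 h5

/-- In the centre-free case every element commutes with all but finitely many conjugates of any
element. -/
theorem MN.finitary (h : MN G) (hZ : Subgroup.center G = ⊥) (x a : G) :
    {b : G | IsConj a b ∧ x * b ≠ b * x}.Finite := by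
  classical
  let M : Subgroup G := Subgroup.normalClosure {x, a}
  have hM : M ≠ ⊤ := h.normalClosure_ne_top (by simp)
  have hMn : M.Normal := Subgroup.normalClosure_normal
  have hx : x ∈ M := Subgroup.subset_normalClosure (by simp)
  have ha : a ∈ M := Subgroup.subset_normalClosure (by simp)
  have hX := h.cl_finite hM hx
  have hA := h.cl_finite hM ha
  have hcen : ∀ c : G, c ≠ 1 → Subgroup.centralizer ({c} : Set G) ≠ ⊤ := by
    intro c hc htop
    apply hc
    rw [← Subgroup.mem_bot, ← hZ, Subgroup.mem_center_iff]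
    intro g
    have hg : g ∈ Subgroup.centralizer ({c} : Set G) := by rw [htop]; trivial
    rw [Subgroup.mem_centralizer_singleton_iff] at hg
    exact hg
  have hpiece : ∀ c f : G, c ≠ 1 →
      {b : G | ∃ g : G, b = g * a * g⁻¹ ∧ c = g * f * g⁻¹}.Finite := by
    intro c f hc
    by_cases hne : ∃ g₀ : G, c = g₀ * f * g₀⁻¹
    · obtain ⟨g₀, hg₀⟩ := hne
      have hK : Subgroup.centralizer ({c} : Set G) ⊔ M ≠ ⊤ := h.sup_ne_top (hcen c hc) hM
      have hb₀ : g₀ * a * g₀⁻¹ ∈ Subgroup.centralizer ({c} : Set G) ⊔ M :=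
        Subgroup.mem_sup_right (hMn.conj_mem a ha g₀)
      refine (h.min _ hK _ hb₀).subset ?_
      rintro b ⟨g, rfl, hg⟩
      refine ⟨g * g₀⁻¹, Subgroup.mem_sup_left ?_, by group⟩
      rw [Subgroup.mem_centralizer_singleton_iff]
      have h1 : g * g₀⁻¹ * c = g * f * g₀⁻¹ := by rw [hg₀]; group
      have h2 : c * (g * g₀⁻¹) = g * f * g₀⁻¹ := by rw [hg]; group
      rw [h1, h2]
    · refine Set.Finite.subset Set.finite_empty ?_
      rintro b ⟨g, _, hg⟩
      exact hne ⟨g, hg⟩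
  refine ((hX.subset (Set.sdiff_subset (t := {1}))).biUnion fun c hc =>
    hA.biUnion fun f _ => hpiece c f (fun h1 => hc.2 h1)).subset ?_
  rintro b ⟨hab, hxb⟩
  obtain ⟨g, rfl⟩ := isConj_iff.1 hab
  have hbM : g * a * g⁻¹ ∈ M := hMn.conj_mem a ha g
  simp only [Set.mem_iUnion]
  refine ⟨⁅x, g * a * g⁻¹⁆, ⟨?_, ?_⟩, g⁻¹ * ⁅x, g * a * g⁻¹⁆ * g, ?_, g, rfl, by group⟩
  · have h1 : ⁅x, g * a * g⁻¹⁆ = x * ((g * a * g⁻¹) * x⁻¹ * (g * a * g⁻¹)⁻¹) := by
      rw [commutatorElement_def]; group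
    rw [h1]
    exact Subgroup.mul_mem _ (mem_cl_self x M) (cl_conj hbM (Subgroup.inv_mem _ (mem_cl_self x M)))
  · intro h1
    exact hxb (commutatorElement_eq_one_iff_mul_comm.1 h1)
  · have h1 : g⁻¹ * ⁅x, g * a * g⁻¹⁆ * g = ((g⁻¹ * x * g) * a * (g⁻¹ * x * g)⁻¹) * a⁻¹ := by
      rw [commutatorElement_def]; group
    rw [h1]
    have h2 : g⁻¹ * x * g ∈ M := by
      have := hMn.conj_mem x hx g⁻¹
      rwa [inv_inv] at this
    exact Subgroup.mul_mem _ (cl_conj h2 (mem_cl_self a M)) (Subgroup.inv_mem _ (mem_cl_self a M))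

theorem MN.centerless (h : MN G) (hZ : Subgroup.center G = ⊥) (H₀ : Subgroup G) (hH₀ : H₀ ≠ ⊤)
    (e : ℕ) (he : 0 < e) : Subgroup.closure {g : G | g ^ e ∈ H₀} ≠ ⊤ := by
  classical
  intro hT
  obtain ⟨a, ha⟩ : ∃ a : G, {x : G | IsConj a x}.Infinite := by
    by_contra hcon
    push Not at hcon
    exact h.nfc fun a => hcon a
  let a' : Cj G := a
  let Ω := MulAction.orbit G a'
  let ω₀ : Ω := ⟨a', MulAction.mem_orbit_self a'⟩
  have hval : ∀ (g : G) (y : Ω), ((g • y : Ω) : Cj G) = g • (y : Cj G) := fun g y => rfl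
  have hconj : ∀ y : Ω, IsConj a (show G from (y : Cj G)) := by
    rintro ⟨_, g, rfl⟩
    exact isConj_iff.2 ⟨g, rfl⟩
  have hfin : ∀ g : G, {y : Ω | g • y ≠ y}.Finite := by
    intro g
    refine Set.Finite.of_finite_image (f := fun y : Ω => (show G from (y : Cj G)))
      ((h.finitary hZ g a).subset ?_) ?_
    · rintro _ ⟨y, hy, rfl⟩
      refine ⟨hconj y, fun h1 => hy ?_⟩
      apply Subtype.ext
      rw [hval]
      have h1' : g * (show G from (y : Cj G)) = (show G from (y : Cj G)) * g := h1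
      have h2 : ∀ z : G, g * z = z * g → g * z * g⁻¹ = z := fun z hz => by rw [hz]; group
      exact h2 _ h1'
    · intro y _ z _ hyz
      exact Subtype.ext hyz
  have htr : ∀ x y : Ω, ∃ g : G, g • x = y := fun x y => MulAction.exists_smul_eq G x y
  have hΩ : Infinite Ω := by
    rw [Set.infinite_coe_iff]
    refine ha.mono ?_
    intro x hx
    obtain ⟨g, rfl⟩ := isConj_iff.1 hx
    exact ⟨g, rfl⟩
  -- finiteness of orbits of proper subgroups
  have horb : ∀ (H : Subgroup G), H ≠ ⊤ → ∀ x : Ω, {y : Ω | ∃ g ∈ H, g • x = y}.Finite := by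
    intro H hH x
    let b : G := (show G from (x : Cj G))
    have hK : H ⊔ Subgroup.normalClosure ({b} : Set G) ≠ ⊤ :=
      h.sup_ne_top hH (h.ns b)
    have hb : b ∈ H ⊔ Subgroup.normalClosure ({b} : Set G) :=
      Subgroup.mem_sup_right (Subgroup.subset_normalClosure rfl)
    refine Set.Finite.of_finite_image (f := fun y : Ω => (show G from (y : Cj G)))
      ((h.min _ hK b hb).subset ?_) ?_
    · rintro _ ⟨y, ⟨g, hg, rfl⟩, rfl⟩
      exact ⟨g, Subgroup.mem_sup_left hg, rfl⟩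
    · intro y _ z _ hyz
      exact Subtype.ext hyz
  let 𝓑 : Set (Set Ω) := {B | ∃ N : Subgroup G, N.Normal ∧ N ≠ ⊤ ∧
    B = {y : Ω | ∃ g ∈ N, g • ω₀ = y} ∧ {y : Ω | ∃ g ∈ H₀, g • ω₀ = y} ⊆ B}
  have hBf : ∀ B ∈ 𝓑, B.Finite := by
    rintro B ⟨N, hN, hN', rfl, -⟩
    exact horb N hN' ω₀
  have hex : ∀ F : Set Ω, F.Finite → ∃ B ∈ 𝓑, F ⊆ B := by
    intro F hF
    choose g hg using fun y : Ω => htr ω₀ y
    have hF' := hF.union (horb H₀ hH₀ ω₀)
    have hsub : F ∪ {y : Ω | ∃ g ∈ H₀, g • ω₀ = y} ⊆ {y : Ω | ∃ k ∈ Subgroup.normalClosure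
        (g '' (F ∪ {y : Ω | ∃ g ∈ H₀, g • ω₀ = y})), k • ω₀ = y} := by
      intro y hy
      exact ⟨g y, Subgroup.subset_normalClosure ⟨y, hy, rfl⟩, hg y⟩
    exact ⟨_, ⟨Subgroup.normalClosure (g '' (F ∪ {y : Ω | ∃ g ∈ H₀, g • ω₀ = y})),
      Subgroup.normalClosure_normal, h.normalClosure_ne_top (hF'.image g), rfl,
      fun y hy => hsub (Or.inr hy)⟩, fun y hy => hsub (Or.inl hy)⟩
  have hblock : ∀ B ∈ 𝓑, ∀ g : G, g • B = B ∨ Disjoint (g • B) B := by
    rintro B ⟨N, hN, hN', rfl, -⟩ g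
    have hsub : ∀ g : G, (∃ n ∈ N, ∃ m ∈ N, g • n • ω₀ = m • ω₀) →
        ∀ k ∈ N, ∃ k' ∈ N, g • k • ω₀ = k' • ω₀ := by
      rintro g ⟨n, hn, m, hm, hnm⟩ k hk
      refine ⟨g * k * g⁻¹ * ((g * n * g⁻¹)⁻¹ * m), N.mul_mem (hN.conj_mem k hk g)
        (N.mul_mem (N.inv_mem (hN.conj_mem n hn g)) hm), ?_⟩
      rw [mul_smul, mul_smul ((g * n * g⁻¹)⁻¹), ← hnm, ← mul_smul, ← mul_smul, ← mul_smul,
        ← mul_smul]
      congr 1
      group
    by_cases hd : Disjoint (g • {y : Ω | ∃ g ∈ N, g • ω₀ = y}) {y : Ω | ∃ g ∈ N, g • ω₀ = y}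
    · exact Or.inr hd
    · left
      rw [Set.not_disjoint_iff] at hd
      obtain ⟨_, ⟨_, ⟨n, hn, rfl⟩, rfl⟩, ⟨m, hm, hm'⟩⟩ := hd
      have hm'' : g • n • ω₀ = m • ω₀ := hm'.symm
      apply Set.Subset.antisymm
      · rintro _ ⟨_, ⟨k, hk, rfl⟩, rfl⟩
        obtain ⟨k', hk', h1⟩ := hsub g ⟨n, hn, m, hm, hm''⟩ k hk
        exact ⟨k', hk', h1.symm⟩
      · rintro _ ⟨k, hk, rfl⟩
        have hinv : g⁻¹ • m • ω₀ = n • ω₀ := by rw [← hm'', inv_smul_smul]
        obtain ⟨k', hk', h1⟩ := hsub g⁻¹ ⟨m, hm, n, hn, hinv⟩ k hk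
        rw [Set.mem_smul_set_iff_inv_smul_mem]
        exact ⟨k', hk', h1.symm⟩
  have hTe : ∀ t ∈ {g : G | g ^ e ∈ H₀}, ∀ B ∈ 𝓑, t ^ e • B = B := by
    intro t ht B hB
    rcases hblock B hB (t ^ e) with h1 | h1
    · exact h1
    · exfalso
      obtain ⟨N, hN, hN', rfl, hsub⟩ := hB
      refine Set.disjoint_left.1 h1 (Set.smul_mem_smul_set ⟨1, N.one_mem, one_smul G ω₀⟩)
        (hsub ⟨t ^ e, ht, rfl⟩)
  obtain ⟨H, hH, x, hx⟩ := exists_proper_infinite_orbit hfin htr hΩ 𝓑 hBf hex hblock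
    {g : G | g ^ e ∈ H₀} hT e he hTe
  exact hx (horb H hH x)

/-- **Main theorem.** In a perfect locally finite group which is not FC, with all proper subgroups FC
and not the normal closure of one element, the `e`-th roots of the elements of a proper
subgroup generate a proper subgroup. -/
theorem MN.roots_ne_top (h : MN G) (H : Subgroup G) (hH : H ≠ ⊤) (e : ℕ) (he : 0 < e) :
    Subgroup.closure {g : G | g ^ e ∈ H} ≠ ⊤ := by
  intro hT
  have hC : Subgroup.center G ≠ ⊤ := by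
    intro hC
    have h1 : Subsingleton G := by
      refine subsingleton_of_commutator_eq_top_of_comm h.perf fun x y => ?_
      have hy : y ∈ Subgroup.center G := by rw [hC]; trivial
      exact Subgroup.mem_center_iff.1 hy x
    exact h.nfc fun a => Set.toFinite _
  have hR : MN (G ⧸ Subgroup.center G) := h.quotient _ hC
  have hZ := center_quotient_center h.perf
  have hsurj := QuotientGroup.mk'_surjective (Subgroup.center G)
  have hHtop : H.map (QuotientGroup.mk' (Subgroup.center G)) ≠ ⊤ := by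
    intro h1
    apply h.sup_ne_top hH hC
    rw [eq_top_iff]
    intro g _
    obtain ⟨b, hb, hbg⟩ : (QuotientGroup.mk' (Subgroup.center G)) g ∈
        H.map (QuotientGroup.mk' (Subgroup.center G)) := by rw [h1]; trivial
    have h2 : b⁻¹ * g ∈ Subgroup.center G := QuotientGroup.eq.1 hbg
    have h3 : b * (b⁻¹ * g) ∈ H ⊔ Subgroup.center G :=
      Subgroup.mul_mem _ (Subgroup.mem_sup_left hb) (Subgroup.mem_sup_right h2)
    rwa [mul_inv_cancel_left] at h3
  apply hR.centerless hZ _ hHtop e he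
  rw [eq_top_iff, ← Subgroup.map_top_of_surjective _ hsurj, ← hT, MonoidHom.map_closure]
  refine Subgroup.closure_mono ?_
  rintro _ ⟨g, hg, rfl⟩
  exact ⟨g ^ e, hg, map_pow _ g e⟩

/-- The theorem in terms of the data of the open problem. -/
theorem commutator_ne_top_of_roots (G : Type*) [Group G]
    (hlf : ∀ s : Finset G, (Subgroup.closure (s : Set G) : Set G).Finite)
    (hnfc : ¬ (∀ g : G, {x : G | IsConj g x}.Finite))
    (hmin : ∀ H : Subgroup G, H ≠ ⊤ → ∀ h : H, {x : H | IsConj h x}.Finite)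
    (hsimple : ∀ (M : Subgroup G) [M.Normal], IsSimpleGroup (G ⧸ M) → Finite (G ⧸ M))
    (H : Subgroup G) (hH : H ≠ ⊤) (e : ℕ) (he : 0 < e)
    (hgen : Subgroup.closure {g : G | g ^ e ∈ H} = ⊤) : commutator G ≠ ⊤ := by
  intro hperf
  have hmin' : ∀ H : Subgroup G, H ≠ ⊤ → ∀ h ∈ H, {x | ∃ g ∈ H, g * h * g⁻¹ = x}.Finite := by
    intro H hH h hh
    refine ((hmin H hH ⟨h, hh⟩).image (Subtype.val)).subset ?_
    rintro _ ⟨g, hg, rfl⟩
    exact ⟨⟨g * h * g⁻¹, H.mul_mem (H.mul_mem hg hh) (H.inv_mem hg)⟩,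
      isConj_iff.2 ⟨⟨g, hg⟩, rfl⟩, rfl⟩
  have hMN : MN G := ⟨hlf, hperf, hnfc, hmin',
    fun a => normalClosure_singleton_ne_top hperf hnfc hmin' hsimple a⟩
  exact hMN.roots_ne_top H hH e he hgen

end Pool.Agent.MNF
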