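import Pool.Agent.MNF.Wreath

/-!
# Good elements from generators of bounded order (pigeonhole on return times)
-/

set_option autoImplicit false

open scoped Pointwise

namespace Pool.Agent.MNF

variable {G Ω : Type*} [Group G] [MulAction G Ω]

theorem exists_large (hfin : ∀ g : G, {x : Ω | g • x ≠ x}.Finite)
    (𝓑 : Set (Set Ω)) (hBf : ∀ B ∈ 𝓑, B.Finite)
    (hex : ∀ F : Set Ω, F.Finite → ∃ B ∈ 𝓑, F ⊆ B) (B : Set Ω) (hB : B ∈ 𝓑) :
    ∃ D ∈ 𝓑, B ⊆ D ∧ ∀ g : G, g • B = B →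
      ∃ r : G, (∀ x, x ∉ D → r • x = x) ∧ ∀ x ∈ B, r • x = g • x := by
  classical
  have hBfin : Finite B := (hBf B hB).to_subtype
  let S : Set (B → Ω) := {f | ∃ g : G, g • B = B ∧ ∀ x : B, f x = g • (x : Ω)}
  have hS : S.Finite := by
    have h1 : ({f | ∀ _x : B, f _x ∈ B} : Set (B → Ω)).Finite :=
      Set.Finite.pi' fun _ => hBf B hB
    refine h1.subset ?_
    rintro f ⟨g, hg, hf⟩ x
    rw [hf x]
    have : g • (x : Ω) ∈ g • B := Set.smul_mem_smul_set x.2
    rwa [hg] at this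
  have hch : ∀ f : B → Ω, f ∈ S → ∃ g : G, g • B = B ∧ ∀ x : B, f x = g • (x : Ω) :=
    fun f hf => hf
  choose! gf hgf1 hgf2 using hch
  obtain ⟨D, hD, hDsub⟩ := hex (B ∪ ⋃ f ∈ S, {x : Ω | gf f • x ≠ x})
    ((hBf B hB).union (hS.biUnion fun f _ => hfin _))
  refine ⟨D, hD, fun x hx => hDsub (Or.inl hx), fun g hg => ?_⟩
  have hfS : (fun x : B => g • (x : Ω)) ∈ S := ⟨g, hg, fun _ => rfl⟩
  refine ⟨gf (fun x : B => g • (x : Ω)), fun x hx => ?_, fun x hx => ?_⟩
  · by_contra hc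
    apply hx
    apply hDsub
    refine Or.inr ?_
    simp only [Set.mem_iUnion]
    exact ⟨_, hfS, hc⟩
  · exact (hgf2 _ hfS ⟨x, hx⟩).symm

/-- If the return times of `t` on `B ⊆ D` agree and `D` is large for `B`, a modification of `t`
is good for `B`. -/
theorem good_of_period {B D : Set Ω} (hBD : B ⊆ D)
    (hblock : ∀ g : G, g • D = D ∨ Disjoint (g • D) D)
    (hlarge : ∀ g : G, g • B = B →
      ∃ r : G, (∀ x, x ∉ D → r • x = x) ∧ ∀ x ∈ B, r • x = g • x)
    (t : G) (q : ℕ) (hq : 2 ≤ q) (hqB : t ^ q • B = B)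
    (hqD : ∀ j : ℕ, 0 < j → j < q → t ^ j • D ≠ D) : ∃ h : G, Good h B := by
  obtain ⟨r, hr1, hr2⟩ := hlarge _ hqB
  have hr1' : ∀ x, x ∉ D → r⁻¹ • x = x := by
    intro x hx
    rw [inv_smul_eq_iff, hr1 x hx]
  have hdis : ∀ j : ℕ, 0 < j → j < q → ∀ x ∈ D, t ^ j • x ∉ D := by
    intro j h0 hj x hx hc
    rcases hblock (t ^ j) with h1 | h1
    · exact hqD j h0 hj h1
    · exact Set.disjoint_left.1 h1 (Set.smul_mem_smul_set hx) hc
  have hA : ∀ j : ℕ, j < q → ∀ x ∈ B, (r⁻¹ * t) ^ j • x = t ^ j • x := by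
    intro j
    induction j with
    | zero => intro _ x _; rw [pow_zero, pow_zero]
    | succ j ih =>
      intro hj x hx
      rw [pow_succ', mul_smul, ih (by omega) x hx, mul_smul, ← mul_smul t, ← pow_succ']
      exact hr1' _ (hdis (j + 1) (Nat.succ_pos j) hj x (hBD hx))
  have hB' : ∀ x ∈ B, (r⁻¹ * t) ^ q • x = x := by
    intro x hx
    obtain ⟨k, rfl⟩ : ∃ k, q = k + 1 := ⟨q - 1, by omega⟩
    rw [pow_succ', mul_smul, hA k (by omega) x hx, mul_smul, ← mul_smul t, ← pow_succ',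
      inv_smul_eq_iff, hr2 x hx]
  refine ⟨r⁻¹ * t, fun j => ?_, fun x hx hc => ?_⟩
  · -- reduction modulo `q`
    have hred : ∀ x ∈ B, (r⁻¹ * t) ^ j • x = t ^ (j % (q : ℤ)).toNat • x := by
      intro x hx
      have hq0 : (0 : ℤ) < q := by exact_mod_cast (by omega : 0 < q)
      have h1 : j = (((j % (q : ℤ)).toNat : ℕ) : ℤ) + (q : ℤ) * (j / (q : ℤ)) := by
        rw [Int.toNat_of_nonneg (Int.emod_nonneg _ hq0.ne')]
        exact (Int.emod_add_mul_ediv j q).symm
      have h2 : ((r⁻¹ * t) ^ (q : ℤ)) ^ (j / (q : ℤ)) • x = x := by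
        have h3 : (r⁻¹ * t) ^ (q : ℤ) ∈ MulAction.stabilizer G x := by
          rw [MulAction.mem_stabilizer_iff, zpow_natCast]
          exact hB' x hx
        exact (MulAction.stabilizer G x).zpow_mem h3 _
      have h4 : (j % (q : ℤ)).toNat < q := by
        have := Int.emod_lt_of_pos j hq0
        have h5 := Int.emod_nonneg j hq0.ne'
        omega
      conv_lhs => rw [h1]
      rw [zpow_add, mul_smul, zpow_mul, h2, zpow_natCast, hA _ h4 x hx]
    rcases Nat.eq_zero_or_pos (j % (q : ℤ)).toNat with h0 | h0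
    · left
      intro x hx
      rw [hred x hx, h0, pow_zero, one_smul]
    · right
      intro x hx hc
      rw [hred x hx] at hc
      have hq0 : (0 : ℤ) < q := by exact_mod_cast (by omega : 0 < q)
      refine hdis _ h0 ?_ x (hBD hx) (hBD hc)
      have := Int.emod_lt_of_pos j hq0
      have h5 := Int.emod_nonneg j hq0.ne'
      omega
  · have h1 := hA 1 (by omega) x hx
    rw [pow_one, pow_one] at h1
    rw [h1] at hc
    have h2 := hdis 1 one_pos (by omega) x (hBD hx)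
    rw [pow_one] at h2
    exact h2 (hBD hc)

theorem exists_good (hfin : ∀ g : G, {x : Ω | g • x ≠ x}.Finite)
    (htr : ∀ x y : Ω, ∃ g : G, g • x = y) (hΩ : Infinite Ω)
    (𝓑 : Set (Set Ω)) (hBf : ∀ B ∈ 𝓑, B.Finite)
    (hex : ∀ F : Set Ω, F.Finite → ∃ B ∈ 𝓑, F ⊆ B)
    (hblock : ∀ B ∈ 𝓑, ∀ g : G, g • B = B ∨ Disjoint (g • B) B)
    (T : Set G) (hT : Subgroup.closure T = ⊤) (e : ℕ) (he : 0 < e)
    (hTe : ∀ t ∈ T, ∀ B ∈ 𝓑, t ^ e • B = B) :
    ∀ B ∈ 𝓑, ∃ h : G, Good h B := by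
  classical
  intro B hB
  obtain ⟨x₀⟩ : Nonempty Ω := inferInstance
  obtain ⟨D₀, hD₀, hD₀sub⟩ := hex (B ∪ {x₀}) ((hBf B hB).union (Set.finite_singleton _))
  have hlarge := exists_large hfin 𝓑 hBf hex
  choose! nx hnx1 hnx2 hnx3 using hlarge
  let D : ℕ → Set Ω := fun n => nx^[n] D₀
  have hDs : ∀ n, D (n + 1) = nx (D n) := fun n => Function.iterate_succ_apply' nx n D₀
  have hDB : ∀ n, D n ∈ 𝓑 := by
    intro n
    induction n with
    | zero => exact hD₀
    | succ n ih => rw [hDs]; exact hnx1 _ ih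
  have hDsub : ∀ n, D n ⊆ D (n + 1) := by
    intro n
    rw [hDs]
    exact hnx2 _ (hDB n)
  have hDmono : Monotone D := monotone_nat_of_le_succ hDsub
  have hx₀ : ∀ n, x₀ ∈ D n := fun n => hDmono (Nat.zero_le n) (hD₀sub (Or.inr rfl))
  have hBD : ∀ n, B ⊆ D n := fun n x hx => hDmono (Nat.zero_le n) (hD₀sub (Or.inl hx))
  -- some generator moves `D e`
  obtain ⟨t, htT, htD⟩ : ∃ t ∈ T, t • D e ≠ D e := by
    by_contra hcon
    push Not at hcon
    have hle : Subgroup.closure T ≤ MulAction.stabilizer G (D e) := by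
      rw [Subgroup.closure_le]
      exact fun t ht => hcon t ht
    rw [hT] at hle
    have huniv : (Set.univ : Set Ω) ⊆ D e := by
      intro y _
      obtain ⟨g, hg⟩ := htr x₀ y
      have h1 : g • D e = D e := hle (Subgroup.mem_top g)
      rw [← h1, ← hg]
      exact Set.smul_mem_smul_set (hx₀ e)
    exact Set.infinite_univ ((hBf _ (hDB e)).subset huniv)
  -- periods
  let q : ℕ → ℕ := fun n => MulAction.period t (D n)
  have hqdvd : ∀ n, q n ∣ e := fun n =>
    MulAction.pow_smul_eq_iff_period_dvd.1 (hTe t htT _ (hDB n))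
  have hqper : ∀ n, t ^ q n • D n = D n := fun n => MulAction.pow_period_smul t (D n)
  have hqs : ∀ n, q (n + 1) ∣ q n := by
    intro n
    refine MulAction.pow_smul_eq_iff_period_dvd.1 ?_
    rcases hblock _ (hDB (n + 1)) (t ^ q n) with h1 | h1
    · exact h1
    · exfalso
      have h2 : t ^ q n • x₀ ∈ D n := by
        rw [← hqper n]
        exact Set.smul_mem_smul_set (hx₀ n)
      exact Set.disjoint_left.1 h1 (Set.smul_mem_smul_set (hx₀ (n + 1))) (hDsub n h2)
  have hqe : q e ≠ 1 := by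
    intro h1
    apply htD
    have := hqper e
    rwa [h1, pow_one] at this
  have hpos : ∀ n, 0 < q n := fun n => Nat.pos_of_dvd_of_pos (hqdvd n) he
  obtain ⟨i, hie, hqi⟩ : ∃ i, i < e ∧ q i = q (i + 1) := by
    by_contra hcon
    push Not at hcon
    have key : ∀ n, n ≤ e → n + q n ≤ e := by
      intro n
      induction n with
      | zero => intro _; rw [Nat.zero_add]; exact Nat.le_of_dvd he (hqdvd 0)
      | succ n ih =>
        intro hn
        have h1 := ih (by omega)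
        have h2 : q (n + 1) ≤ q n := Nat.le_of_dvd (hpos n) (hqs n)
        have h3 : q (n + 1) < q n := lt_of_le_of_ne h2 (Ne.symm (hcon n (by omega)))
        omega
    have h1 := key e le_rfl
    have h2 := hpos e
    omega
  have hqchain : ∀ m n, m ≤ n → q n ∣ q m := by
    intro m n hmn
    induction n, hmn using Nat.le_induction with
    | base => exact dvd_rfl
    | succ n _ ih => exact (hqs n).trans ih
  have hq2 : 2 ≤ q (i + 1) := by
    have h1 : q (i + 1) ≠ 1 := by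
      intro h1
      have h2 := hqchain (i + 1) e hie
      rw [h1] at h2
      exact hqe (Nat.dvd_one.1 h2)
    have := hpos (i + 1)
    omega
  obtain ⟨h, hh⟩ := good_of_period (hDsub i) (hblock _ (hDB (i + 1)))
    (by rw [hDs]; exact hnx3 _ (hDB i)) t (q (i + 1)) hq2 (by rw [← hqi]; exact hqper i)
    (fun j h0 hj hc => by
      have h1 := MulAction.pow_smul_eq_iff_period_dvd.1 hc
      exact absurd (Nat.le_of_dvd h0 h1) (not_le.2 hj))
  exact ⟨h, hh.mono (hBD i)⟩

/-- **Theorem W.** A finitary transitive group on an infinite set with an exhausting family of finite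
blocks, generated by elements whose `e`-th powers fix all these blocks setwise, has a proper
subgroup with an infinite orbit. -/
theorem exists_proper_infinite_orbit
    (hfin : ∀ g : G, {x : Ω | g • x ≠ x}.Finite)
    (htr : ∀ x y : Ω, ∃ g : G, g • x = y) (hΩ : Infinite Ω)
    (𝓑 : Set (Set Ω)) (hBf : ∀ B ∈ 𝓑, B.Finite)
    (hex : ∀ F : Set Ω, F.Finite → ∃ B ∈ 𝓑, F ⊆ B)
    (hblock : ∀ B ∈ 𝓑, ∀ g : G, g • B = B ∨ Disjoint (g • B) B)
    (T : Set G) (hT : Subgroup.closure T = ⊤) (e : ℕ) (he : 0 < e)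
    (hTe : ∀ t ∈ T, ∀ B ∈ 𝓑, t ^ e • B = B) :
    ∃ H : Subgroup G, H ≠ ⊤ ∧ ∃ x : Ω, {y | ∃ g ∈ H, g • x = y}.Infinite := by
  have hne : ∃ x y : Ω, x ≠ y := exists_pair_ne Ω
  exact exists_proper_of_good hfin htr 𝓑 hBf hex hne
    (exists_good hfin htr hΩ 𝓑 hBf hex hblock T hT e he hTe)

end Pool.Agent.MNF
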