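import Pool.Agent.MNF.Pigeon

/-!
# Perfect locally finite groups all of whose proper subgroups are FC-groups
-/

set_option autoImplicit false

open scoped Pointwise commutatorElement

namespace Pool.Agent.MNF

/-- A copy of `G` on which `G` acts by conjugation. -/
def Cj (G : Type*) := G

instance (G : Type*) [Group G] : MulAction G (Cj G) where
  smul g x := (g * (show G from x) * g⁻¹ : G)
  one_smul x := by
    have h : ∀ y : G, 1 * y * 1⁻¹ = y := fun y => by simp
    exact h x
  mul_smul g h x := by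
    have h : ∀ y : G, (g * h) * y * (g * h)⁻¹ = g * (h * y * h⁻¹) * g⁻¹ := fun y => by group
    exact h x

theorem commutator_eq_top_of_surjective {G Q : Type*} [Group G] [Group Q] (f : G →* Q)
    (hf : Function.Surjective f) (h : commutator G = ⊤) : commutator Q = ⊤ := by
  have h1 : (⊤ : Subgroup G).map f = ⊤ := Subgroup.map_top_of_surjective f hf
  rw [commutator_def] at h ⊢
  rw [← h1, ← Subgroup.map_commutator, h]

theorem subsingleton_of_commutator_eq_top_of_comm {K : Type*} [Group K]
    (hperf : commutator K = ⊤) (hc : ∀ x y : K, x * y = y * x) : Subsingleton K := by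
  have h1 : commutator K = ⊥ := by
    rw [commutator_def, Subgroup.commutator_eq_bot_iff_le_centralizer]
    intro x _ y _
    exact hc y x
  rw [hperf] at h1
  exact Subgroup.subsingleton_iff.1 (subsingleton_of_bot_eq_top h1.symm)

/-- A perfect FC-group without proper normal subgroups of finite index is trivial. -/
theorem subsingleton_of_fc {K : Type*} [Group K]
    (hidx : ∀ N : Subgroup K, N.Normal → N.FiniteIndex → N = ⊤)
    (hfc : ∀ g : K, {x : K | IsConj g x}.Finite) (hperf : commutator K = ⊤) : Subsingleton K := by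
  refine subsingleton_of_commutator_eq_top_of_comm hperf fun x y => ?_
  let S : Subgroup K := MulAction.stabilizer K (show Cj K from y)
  have horb : (MulAction.orbit K (show Cj K from y)).Finite := by
    refine (hfc y).subset ?_
    rintro _ ⟨g, rfl⟩
    exact isConj_iff.2 ⟨g, rfl⟩
  have hindex : S.index ≠ 0 := by
    rw [MulAction.index_stabilizer]
    exact Set.ncard_ne_zero_of_mem (MulAction.mem_orbit_self _) horb
  have hfi : S.FiniteIndex := ⟨hindex⟩
  have hN : S.normalCore = ⊤ := hidx _ inferInstance inferInstance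
  have hS : S = ⊤ := by
    rw [eq_top_iff, ← hN]
    exact S.normalCore_le
  have hx : x ∈ S := by rw [hS]; trivial
  have h1 : (x * y * x⁻¹ : K) = y := hx
  calc x * y = x * y * x⁻¹ * x := by group
    _ = y * x := by rw [h1]

/-- The class of groups considered: perfect locally finite groups which are not FC-groups, all of
whose proper subgroups are FC-groups and which are not the normal closure of one element. -/
structure MN (G : Type*) [Group G] : Prop where
  lf : ∀ s : Finset G, (Subgroup.closure (s : Set G) : Set G).Finite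
  perf : commutator G = ⊤
  nfc : ¬ ∀ a : G, {x : G | IsConj a x}.Finite
  min : ∀ H : Subgroup G, H ≠ ⊤ → ∀ h ∈ H, {x | ∃ g ∈ H, g * h * g⁻¹ = x}.Finite
  ns : ∀ a : G, Subgroup.normalClosure ({a} : Set G) ≠ ⊤

variable {G : Type*} [Group G]

/-- A perfect non-FC-group with all proper subgroups FC has no proper normal subgroup of finite
index. -/
theorem eq_top_of_finiteIndex (hperf : commutator G = ⊤)
    (hnfc : ¬ ∀ a : G, {x : G | IsConj a x}.Finite)
    (hmin : ∀ H : Subgroup G, H ≠ ⊤ → ∀ h ∈ H, {x | ∃ g ∈ H, g * h * g⁻¹ = x}.Finite)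
    (N : Subgroup G) (hN : N.Normal) (hfi : N.FiniteIndex) : N = ⊤ := by
  by_contra hne
  apply hnfc
  intro x
  have hfin : Finite (G ⧸ N) := Subgroup.finite_quotient_of_finiteIndex
  -- the subgroup `⟨N, x⟩` is proper
  have hK : N ⊔ Subgroup.zpowers x ≠ ⊤ := by
    intro htop
    apply hne
    have h1 : Subsingleton (G ⧸ N) := by
      refine subsingleton_of_commutator_eq_top_of_comm
        (commutator_eq_top_of_surjective (QuotientGroup.mk' N) (QuotientGroup.mk'_surjective _)
          hperf) ?_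
      have hcyc : ∀ q : G ⧸ N, ∃ k : ℤ, q = (QuotientGroup.mk' N x) ^ k := by
        intro q
        obtain ⟨g, rfl⟩ := QuotientGroup.mk'_surjective N q
        have hg : g ∈ N ⊔ Subgroup.zpowers x := by rw [htop]; trivial
        rw [Subgroup.mem_sup_of_normal_left] at hg
        obtain ⟨n, hn, z, hz, rfl⟩ := hg
        obtain ⟨k, rfl⟩ := Subgroup.mem_zpowers_iff.1 hz
        refine ⟨k, ?_⟩
        have h2 : (QuotientGroup.mk' N) n = 1 := (QuotientGroup.eq_one_iff n).2 hn
        rw [map_mul, h2, one_mul, map_zpow]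
      intro a b
      obtain ⟨k, rfl⟩ := hcyc a
      obtain ⟨l, rfl⟩ := hcyc b
      rw [← zpow_add, ← zpow_add, add_comm]
    exact QuotientGroup.subsingleton_iff.1 h1
  have hx : x ∈ N ⊔ Subgroup.zpowers x := Subgroup.mem_sup_right (Subgroup.mem_zpowers x)
  have hfx := hmin _ hK x hx
  refine (Set.finite_iUnion (ι := G ⧸ N) (fun q => hfx.image fun y => q.out * y * q.out⁻¹)).subset ?_
  intro y hy
  obtain ⟨g, rfl⟩ := isConj_iff.1 hy
  simp only [Set.mem_iUnion]
  refine ⟨(g : G ⧸ N), ((g : G ⧸ N).out⁻¹ * g) * x * ((g : G ⧸ N).out⁻¹ * g)⁻¹, ⟨_, ?_, rfl⟩, ?_⟩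
  · apply Subgroup.mem_sup_left
    rw [← QuotientGroup.eq]
    exact QuotientGroup.out_eq' _
  · group

theorem MN.sup_ne_top (h : MN G) {H N : Subgroup G} (hH : H ≠ ⊤)
    [hN : N.Normal] (hN' : N ≠ ⊤) : H ⊔ N ≠ ⊤ := by
  intro htop
  have hsurj : ∀ q : G ⧸ N, ∃ x ∈ H, (QuotientGroup.mk' N) x = q := by
    intro q
    obtain ⟨g, rfl⟩ := QuotientGroup.mk'_surjective N q
    have hg : g ∈ H ⊔ N := by rw [htop]; trivial
    rw [Subgroup.mem_sup_of_normal_right] at hg
    obtain ⟨x, hx, n, hn, rfl⟩ := hg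
    refine ⟨x, hx, ?_⟩
    rw [map_mul, (QuotientGroup.eq_one_iff n).2 hn |> fun h1 => (h1 : (QuotientGroup.mk' N) n = 1),
      mul_one]
  have hfc : ∀ q : G ⧸ N, {x : G ⧸ N | IsConj q x}.Finite := by
    intro q
    obtain ⟨x, hx, rfl⟩ := hsurj q
    refine ((h.min H hH x hx).image (QuotientGroup.mk' N)).subset ?_
    intro y hy
    obtain ⟨c, rfl⟩ := isConj_iff.1 hy
    obtain ⟨z, hz, rfl⟩ := hsurj c
    exact ⟨z * x * z⁻¹, ⟨z, hz, rfl⟩, by rw [map_mul, map_mul, map_inv]⟩
  have hidx : ∀ M : Subgroup (G ⧸ N), M.Normal → M.FiniteIndex → M = ⊤ := by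
    intro M hM hfi
    have h1 : M.comap (QuotientGroup.mk' N) = ⊤ := by
      refine eq_top_of_finiteIndex h.perf h.nfc h.min _ (hM.comap _) ⟨?_⟩
      rw [Subgroup.index_comap_of_surjective _ (QuotientGroup.mk'_surjective N)]
      exact hfi.index_ne_zero
    rw [eq_top_iff]
    intro x _
    obtain ⟨g, rfl⟩ := QuotientGroup.mk'_surjective N x
    have hg : g ∈ M.comap (QuotientGroup.mk' N) := by rw [h1]; trivial
    exact hg
  have h1 := subsingleton_of_fc hidx hfc
    (commutator_eq_top_of_surjective (QuotientGroup.mk' _) (QuotientGroup.mk'_surjective _) h.perf)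
  exact hN' (QuotientGroup.subsingleton_iff.1 h1)

/-- The subgroup generated by the `F`-conjugates of `a`. -/
def cl (a : G) (F : Subgroup G) : Subgroup G :=
  Subgroup.closure ((fun f => f * a * f⁻¹) '' (F : Set G))

theorem cl_conj {a : G} {F : Subgroup G} {g : G} (hg : g ∈ F) {x : G} (hx : x ∈ cl a F) :
    g * x * g⁻¹ ∈ cl a F := by
  have h1 : cl a F ≤ (cl a F).comap (MulAut.conj g).toMonoidHom := by
    conv_lhs => rw [cl]
    rw [Subgroup.closure_le]
    rintro _ ⟨f, hf, rfl⟩
    show g * (f * a * f⁻¹) * g⁻¹ ∈ cl a F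
    have h2 : g * (f * a * f⁻¹) * g⁻¹ = (g * f) * a * (g * f)⁻¹ := by group
    rw [h2]
    exact Subgroup.subset_closure ⟨g * f, F.mul_mem hg hf, rfl⟩
  exact h1 hx

theorem mem_cl_self (a : G) (M : Subgroup G) : a ∈ cl a M :=
  Subgroup.subset_closure ⟨1, M.one_mem, by simp⟩

theorem MN.cl_finite (h : MN G) {M : Subgroup G} (hM : M ≠ ⊤) {a : G} (ha : a ∈ M) :
    (cl a M : Set G).Finite := by
  classical
  have h1 : ((fun f => f * a * f⁻¹) '' (M : Set G)).Finite := h.min M hM a ha
  have h2 := h.lf h1.toFinset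
  rwa [h1.coe_toFinset] at h2

/-- If every simple quotient of `G` is finite then `G` is not the normal closure of one element. -/
theorem normalClosure_singleton_ne_top (hperf : commutator G = ⊤)
    (hnfc : ¬ ∀ a : G, {x : G | IsConj a x}.Finite)
    (hmin : ∀ H : Subgroup G, H ≠ ⊤ → ∀ h ∈ H, {x | ∃ g ∈ H, g * h * g⁻¹ = x}.Finite)
    (hsimple : ∀ (M : Subgroup G) [M.Normal], IsSimpleGroup (G ⧸ M) → Finite (G ⧸ M))
    (a : G) : Subgroup.normalClosure ({a} : Set G) ≠ ⊤ := by
  intro htop
  have key : ∀ K : Subgroup G, K.Normal → a ∈ K → K = ⊤ := by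
    intro K hK haK
    rw [eq_top_iff, ← htop]
    exact Subgroup.normalClosure_le_normal (by simpa using haK)
  have ha1 : a ≠ 1 := by
    intro h1
    have h2 : (⊥ : Subgroup G) = ⊤ := key ⊥ inferInstance (by rw [h1]; exact Subgroup.one_mem _)
    apply hnfc
    intro b
    have hss : Subsingleton G := Subgroup.subsingleton_iff.1 (subsingleton_of_bot_eq_top h2)
    exact Set.toFinite _
  -- a maximal normal subgroup which does not contain `a`
  obtain ⟨M, -, hM⟩ := zorn_le_nonempty₀ {K : Subgroup G | K.Normal ∧ a ∉ K} (by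
    intro c hc hchain K₀ hK₀
    refine ⟨sSup c, ⟨⟨?_⟩, ?_⟩, fun K hK => le_sSup hK⟩
    · intro n hn g
      rw [Subgroup.mem_sSup_of_directedOn ⟨K₀, hK₀⟩ hchain.directedOn] at hn ⊢
      obtain ⟨K, hK, hnK⟩ := hn
      exact ⟨K, hK, (hc hK).1.conj_mem n hnK g⟩
    · intro hac
      rw [Subgroup.mem_sSup_of_directedOn ⟨K₀, hK₀⟩ hchain.directedOn] at hac
      obtain ⟨K, hK, haK⟩ := hac
      exact (hc hK).2 haK) ⊥ ⟨inferInstance, fun h1 => ha1 (Subgroup.mem_bot.1 h1)⟩
  have hMn : M.Normal := hM.prop.1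
  have haM : a ∉ M := hM.prop.2
  have hMtop : M ≠ ⊤ := fun h1 => haM (by rw [h1]; trivial)
  have hs : IsSimpleGroup (G ⧸ M) := by
    have hnt : Nontrivial (G ⧸ M) := by
      by_contra h1
      rw [not_nontrivial_iff_subsingleton] at h1
      exact hMtop (QuotientGroup.subsingleton_iff.1 h1)
    refine ⟨fun K hK => ?_⟩
    by_cases haK : a ∈ K.comap (QuotientGroup.mk' M)
    · right
      have h1 := key _ (hK.comap _) haK
      rw [eq_top_iff]
      intro x _
      obtain ⟨g, rfl⟩ := QuotientGroup.mk'_surjective M x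
      have hg : g ∈ K.comap (QuotientGroup.mk' M) := by rw [h1]; trivial
      exact hg
    · left
      have hle : M ≤ K.comap (QuotientGroup.mk' M) := by
        intro m hm
        show (QuotientGroup.mk' M) m ∈ K
        have h2 : (QuotientGroup.mk' M) m = 1 := (QuotientGroup.eq_one_iff m).2 hm
        rw [h2]
        exact K.one_mem
      have h1 : K.comap (QuotientGroup.mk' M) ≤ M := hM.le_of_ge ⟨hK.comap _, haK⟩ hle
      rw [eq_bot_iff]
      intro x hx
      obtain ⟨g, rfl⟩ := QuotientGroup.mk'_surjective M x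
      exact (QuotientGroup.eq_one_iff g).2 (h1 hx)
  have hfin := hsimple M hs
  exact hMtop (eq_top_of_finiteIndex hperf hnfc hmin M hMn Subgroup.finiteIndex_of_finite_quotient)

end Pool.Agent.MNF
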