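import Mathlib

/-!
# A wreath product construction inside finitary groups

`G` acts finitarily and transitively on `Ω`; `𝓑` is a family of finite blocks which exhausts `Ω`.
If `G` is generated by elements whose `p^e`-th powers fix every member of `𝓑` setwise, then `G` has a
proper subgroup with an infinite orbit.
-/

set_option autoImplicit false

open scoped Pointwise

namespace Pool.Agent.MNF

variable {G Ω : Type*} [Group G] [MulAction G Ω]

/-- `h` returns trivially to `C`: every power of `h` is the identity on `C` or moves `C` off itself,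
and `h` itself moves `C` off itself. -/
def Good (h : G) (C : Set Ω) : Prop :=
  (∀ j : ℤ, (∀ x ∈ C, h ^ j • x = x) ∨ (∀ x ∈ C, h ^ j • x ∉ C)) ∧ (∀ x ∈ C, h • x ∉ C)

theorem Good.mono {h : G} {C D : Set Ω} (hG : Good h D) (hCD : C ⊆ D) : Good h C := by
  refine ⟨fun j => ?_, fun x hx hc => hG.2 x (hCD hx) (hCD hc)⟩
  rcases hG.1 j with h1 | h1
  · exact Or.inl fun x hx => h1 x (hCD hx)
  · exact Or.inr fun x hx hc => h1 x (hCD hx) (hCD hc)

/-- `P K B`: every element of `K` is the identity on `B` or moves `B` off itself. -/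
def Triv (K : Subgroup G) (B : Set Ω) : Prop :=
  ∀ g ∈ K, (∀ x ∈ B, g • x = x) ∨ (∀ x ∈ B, g • x ∉ B)

/-- The elements of `K` are supported in `C`. -/
def SuppIn (K : Subgroup G) (C : Set Ω) : Prop := ∀ g ∈ K, ∀ x, x ∉ C → g • x = x

theorem SuppIn.mem {K : Subgroup G} {C : Set Ω} (hK : SuppIn K C) {g : G} (hg : g ∈ K) {x : Ω}
    (hx : x ∈ C) : g • x ∈ C := by
  by_contra hc
  have h1 := hK g⁻¹ (K.inv_mem hg) _ hc
  rw [inv_smul_smul] at h1
  exact hc (h1 ▸ hx)

theorem SuppIn.mono {K : Subgroup G} {C D : Set Ω} (hK : SuppIn K C) (hCD : C ⊆ D) : SuppIn K D :=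
  fun g hg x hx => hK g hg x fun h => hx (hCD h)

/-- The key description of the elements of `⟨K, h⟩` on the translates of `C`. -/
theorem wreath_aux {K : Subgroup G} {C : Set Ω} (hK : SuppIn K C) {h : G} (hh : Good h C)
    {g : G} (hg : g ∈ K ⊔ Subgroup.zpowers h) :
    ∀ i : ℤ, ∃ j : ℤ, ∃ k ∈ K, ∀ x ∈ C, g • h ^ i • x = h ^ j • k • x := by
  have hcl : K ⊔ Subgroup.zpowers h = Subgroup.closure ((K : Set G) ∪ {h}) := by
    rw [Subgroup.closure_union, Subgroup.closure_eq, Subgroup.zpowers_eq_closure]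
  rw [hcl] at hg
  -- generators and their inverses
  have gen : ∀ g : G, (g ∈ K ∨ g = h ∨ g = h⁻¹) →
      ∀ i : ℤ, ∃ j : ℤ, ∃ k ∈ K, ∀ x ∈ C, g • h ^ i • x = h ^ j • k • x := by
    rintro g (hgK | rfl | rfl) i
    · rcases hh.1 i with h1 | h1
      · refine ⟨0, g, hgK, fun x hx => ?_⟩
        rw [h1 x hx, zpow_zero, one_smul]
      · refine ⟨i, 1, K.one_mem, fun x hx => ?_⟩
        rw [one_smul, hK g hgK _ (h1 x hx)]
    · refine ⟨i + 1, 1, K.one_mem, fun x _ => ?_⟩
      rw [one_smul, ← mul_smul, ← zpow_one_add, add_comm]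
    · refine ⟨i - 1, 1, K.one_mem, fun x _ => ?_⟩
      rw [one_smul, ← mul_smul, zpow_sub_one, ← zpow_neg_one h, ← zpow_add, ← zpow_add, add_comm]
  have hmul : ∀ g₁ g₂ : G,
      (∀ i : ℤ, ∃ j : ℤ, ∃ k ∈ K, ∀ x ∈ C, g₁ • h ^ i • x = h ^ j • k • x) →
      (∀ i : ℤ, ∃ j : ℤ, ∃ k ∈ K, ∀ x ∈ C, g₂ • h ^ i • x = h ^ j • k • x) →
      (∀ i : ℤ, ∃ j : ℤ, ∃ k ∈ K, ∀ x ∈ C, (g₁ * g₂) • h ^ i • x = h ^ j • k • x) := by
    intro g₁ g₂ h1 h2 i
    obtain ⟨j, k, hk, hj⟩ := h2 i
    obtain ⟨j', k', hk', hj'⟩ := h1 j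
    refine ⟨j', k' * k, K.mul_mem hk' hk, fun x hx => ?_⟩
    rw [mul_smul, hj x hx, hj' _ (hK.mem hk hx), mul_smul]
  induction hg using Subgroup.closure_induction_left with
  | one =>
    intro i
    exact ⟨i, 1, K.one_mem, fun x _ => by rw [one_smul, one_smul]⟩
  | mul_left x hx y hy ih =>
    refine hmul x y (gen x ?_) ih
    rcases hx with hx | hx
    · exact Or.inl hx
    · exact Or.inr (Or.inl hx)
  | inv_mul_cancel x hx y hy ih =>
    refine hmul x⁻¹ y (gen x⁻¹ ?_) ih
    rcases hx with hx | hx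
    · exact Or.inl (K.inv_mem hx)
    · rw [Set.mem_singleton_iff] at hx
      exact Or.inr (Or.inr (by rw [hx]))

theorem wreath_step {K : Subgroup G} {B C : Set Ω} (hBC : B ⊆ C) (hK : SuppIn K C)
    (hT : Triv K B) {h : G} (hh : Good h C) : Triv (K ⊔ Subgroup.zpowers h) B := by
  intro g hg
  obtain ⟨j, k, hk, hj⟩ := wreath_aux hK hh hg 0
  have hj' : ∀ x ∈ C, g • x = h ^ j • k • x := by
    intro x hx
    have := hj x hx
    rwa [zpow_zero, one_smul] at this
  rcases hh.1 j with h1 | h1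
  · have h2 : ∀ x ∈ C, g • x = k • x := by
      intro x hx
      rw [hj' x hx, h1 _ (hK.mem hk hx)]
    rcases hT k hk with h3 | h3
    · exact Or.inl fun x hx => by rw [h2 x (hBC hx), h3 x hx]
    · exact Or.inr fun x hx => by rw [h2 x (hBC hx)]; exact h3 x hx
  · refine Or.inr fun x hx hc => ?_
    rw [hj' x (hBC hx)] at hc
    exact h1 _ (hK.mem hk (hBC hx)) (hBC hc)

/-- From good elements for arbitrarily large blocks to a proper subgroup with an infinite orbit. -/
theorem exists_proper_of_good (hfin : ∀ g : G, {x : Ω | g • x ≠ x}.Finite)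
    (htr : ∀ x y : Ω, ∃ g : G, g • x = y) (𝓑 : Set (Set Ω)) (hBf : ∀ B ∈ 𝓑, B.Finite)
    (hex : ∀ F : Set Ω, F.Finite → ∃ B ∈ 𝓑, F ⊆ B) (hΩ : ∃ x y : Ω, x ≠ y)
    (hgood : ∀ B ∈ 𝓑, ∃ h : G, Good h B) :
    ∃ H : Subgroup G, H ≠ ⊤ ∧ ∃ x : Ω, {y | ∃ g ∈ H, g • x = y}.Infinite := by
  classical
  obtain ⟨a, b, hab⟩ := hΩ
  obtain ⟨B₀, hB₀, habB⟩ := hex {a, b} (by simp)
  have haB : a ∈ B₀ := habB (by simp)
  have hbB : b ∈ B₀ := habB (by simp)
  -- choice of `h` and of the next block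
  choose! hh hhgood using hgood
  have hnext : ∀ B : Set Ω, B ∈ 𝓑 → ∃ D ∈ 𝓑, B ∪ {x : Ω | hh B • x ≠ x} ⊆ D := by
    intro B hB
    exact hex _ ((hBf B hB).union (hfin _))
  choose! nx hnxB hnx using hnext
  let C : ℕ → Set Ω := fun n => nx^[n] B₀
  have hC0 : C 0 = B₀ := rfl
  have hCs : ∀ n, C (n + 1) = nx (C n) := fun n => Function.iterate_succ_apply' nx n B₀
  have hCB : ∀ n, C n ∈ 𝓑 := by
    intro n
    induction n with
    | zero => exact hB₀
    | succ n ih => rw [hCs]; exact hnxB _ ih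
  have hCsub : ∀ n, C n ⊆ C (n + 1) := by
    intro n
    rw [hCs]
    exact fun x hx => hnx _ (hCB n) (Or.inl hx)
  have hCmono : Monotone C := monotone_nat_of_le_succ hCsub
  have hsupp : ∀ n, ∀ x, x ∉ C (n + 1) → hh (C n) • x = x := by
    intro n x hx
    by_contra hc
    rw [hCs] at hx
    exact hx (hnx _ (hCB n) (Or.inr hc))
  -- the subgroups
  let H : ℕ → Subgroup G := fun n => Nat.rec ⊥ (fun n K => K ⊔ Subgroup.zpowers (hh (C n))) n
  have hH0 : H 0 = ⊥ := rfl
  have hHs : ∀ n, H (n + 1) = H n ⊔ Subgroup.zpowers (hh (C n)) := fun n => rfl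
  have hHmono : Monotone H := monotone_nat_of_le_succ fun n => by rw [hHs]; exact le_sup_left
  have hHsupp : ∀ n, SuppIn (H n) (C n) := by
    intro n
    induction n with
    | zero =>
      intro g hg x _
      rw [hH0, Subgroup.mem_bot] at hg
      rw [hg, one_smul]
    | succ n ih =>
      intro g hg x hx
      have hle : H n ⊔ Subgroup.zpowers (hh (C n)) ≤ MulAction.stabilizer G x := by
        rw [sup_le_iff, Subgroup.zpowers_le]
        refine ⟨fun k hk => ?_, ?_⟩
        · exact ih.mono (hCsub n) k hk x hx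
        · exact hsupp n x hx
      rw [hHs] at hg
      exact hle hg
  have hHtriv : ∀ n, Triv (H n) B₀ := by
    intro n
    induction n with
    | zero =>
      intro g hg
      rw [hH0, Subgroup.mem_bot] at hg
      exact Or.inl fun x _ => by rw [hg, one_smul]
    | succ n ih =>
      rw [hHs]
      exact wreath_step (by rw [← hC0]; exact hCmono (Nat.zero_le n)) (hHsupp n) ih
        (hhgood _ (hCB n))
  have hdir : Directed (· ≤ ·) H := hHmono.directed_le
  refine ⟨⨆ n, H n, ?_, a, ?_⟩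
  · intro htop
    obtain ⟨g, hg⟩ := htr a b
    have hgm : g ∈ ⨆ n, H n := by rw [htop]; trivial
    rw [Subgroup.mem_iSup_of_directed hdir] at hgm
    obtain ⟨n, hn⟩ := hgm
    rcases hHtriv n g hn with h1 | h1
    · exact hab (by rw [← h1 a haB, hg])
    · exact h1 a haB (by rw [hg]; exact hbB)
  · have haC : ∀ n, a ∈ C n := fun n => hCmono (Nat.zero_le n) (by rw [hC0]; exact haB)
    have hout : ∀ n, hh (C n) • a ∉ C n := fun n => (hhgood _ (hCB n)).2 a (haC n)
    have hin : ∀ n, hh (C n) • a ∈ C (n + 1) := by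
      intro n
      exact (hHsupp (n + 1)).mem (by rw [hHs]; exact Subgroup.mem_sup_right (Subgroup.mem_zpowers _))
        (haC (n + 1))
    have hinj : Function.Injective (fun n => hh (C n) • a) := by
      have key : ∀ m n, m < n → hh (C m) • a ≠ hh (C n) • a := by
        intro m n hmn heq
        apply hout n
        rw [← heq]
        exact hCmono (Nat.succ_le_of_lt hmn) (hin m)
      intro m n hmn
      by_contra hne
      rcases lt_or_gt_of_ne hne with h1 | h1
      · exact key m n h1 hmn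
      · exact key n m h1 hmn.symm
    refine Set.infinite_of_injective_forall_mem hinj fun n => ?_
    exact ⟨hh (C n), Subgroup.mem_iSup_of_mem (n + 1)
      (by rw [hHs]; exact Subgroup.mem_sup_right (Subgroup.mem_zpowers _)), rfl⟩

end Pool.Agent.MNF
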